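import Pool.Agent.W798.KF.Stm

/-!
# Project KF, part C3: Katz-Koester and Cauchy-Schwarz
-/

set_option autoImplicit false

open Finset
open scoped Pointwise Classical

namespace Pool.Agent.W715.KF

open Pool.Agent.W798.SP Pool.Agent.W798.KF

theorem mem_fib {A : Finset ℝ} {l x : ℝ} : x ∈ fib A l ↔ x ∈ A ∧ l * x ∈ A := by
  unfold fib
  rw [Finset.mem_filter]

theorem tC3 : S_C3 := by
  intro A S hA hS
  let W : Finset (Σ _ : ℝ, ℝ × ℝ) := S.sigma (fun l => A ×ˢ fib A l)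
  let V : Finset (Σ _ : ℝ, ℝ) := S.sigma (fun l => fib (A * A) l)
  let φ : (Σ _ : ℝ, ℝ × ℝ) → (Σ _ : ℝ, ℝ) := fun w => ⟨w.1, w.2.1 * w.2.2⟩
  have hW : ∀ w : (Σ _ : ℝ, ℝ × ℝ), w ∈ W ↔
      w.1 ∈ S ∧ w.2.1 ∈ A ∧ w.2.2 ∈ A ∧ w.1 * w.2.2 ∈ A := by
    intro w
    simp only [W, Finset.mem_sigma, Finset.mem_product, mem_fib]
  have hWcard : W.card = A.card * ∑ l ∈ S, (fib A l).card := by
    simp only [W, Finset.card_sigma, Finset.card_product, Finset.mul_sum]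
  have hVcard : V.card = ∑ l ∈ S, (fib (A * A) l).card := by
    simp only [V, Finset.card_sigma]
  have hmap : ∀ w ∈ W, φ w ∈ V := by
    intro w hw
    rw [hW] at hw
    obtain ⟨h1, h2, h3, h4⟩ := hw
    simp only [V, φ, Finset.mem_sigma, mem_fib]
    refine ⟨h1, Finset.mul_mem_mul h2 h3, ?_⟩
    have h5 : w.1 * (w.2.1 * w.2.2) = w.2.1 * (w.1 * w.2.2) := by ring
    rw [h5]
    exact Finset.mul_mem_mul h2 h4
  have hcount : W.card = ∑ v ∈ V, (W.filter (fun w => φ w = v)).card :=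
    Finset.card_eq_sum_card_fiberwise hmap
  have hCS : W.card ^ 2 ≤ V.card * ∑ v ∈ V, (W.filter (fun w => φ w = v)).card ^ 2 := by
    rw [hcount]
    exact sq_sum_le_card_mul_sum_sq
  -- the collisions
  let Q : Finset (Σ _ : (Σ _ : ℝ, ℝ), (Σ _ : ℝ, ℝ × ℝ) × (Σ _ : ℝ, ℝ × ℝ)) :=
    V.sigma (fun v => (W.filter (fun w => φ w = v)) ×ˢ (W.filter (fun w => φ w = v)))
  have hQcard : Q.card = ∑ v ∈ V, (W.filter (fun w => φ w = v)).card ^ 2 := by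
    simp only [Q, Finset.card_sigma, Finset.card_product, sq]
  let E : Finset (Σ _ : ℝ, ℝ × ℝ × ℝ) :=
    (A / A).sigma (fun ρ => fib A ρ ×ˢ fib A ρ ×ˢ fib A ρ)
  have hEcard : E.card = ∑ l ∈ A / A, (fib A l).card ^ 3 := by
    simp only [E, Finset.card_sigma, Finset.card_product]
    apply Finset.sum_congr rfl
    intro l _
    ring
  let f : (Σ _ : (Σ _ : ℝ, ℝ), (Σ _ : ℝ, ℝ × ℝ) × (Σ _ : ℝ, ℝ × ℝ)) → (Σ _ : ℝ, ℝ × ℝ × ℝ) :=
    fun x => ⟨x.2.1.2.1 / x.2.2.2.1, (x.2.2.2.1, x.2.1.2.2, x.2.1.1 * x.2.1.2.2)⟩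
  have hQ : ∀ x ∈ Q, (x.2.1 ∈ W ∧ φ x.2.1 = x.1) ∧ (x.2.2 ∈ W ∧ φ x.2.2 = x.1) := by
    intro x hx
    simp only [Q, Finset.mem_sigma, Finset.mem_product, Finset.mem_filter] at hx
    exact hx.2
  have hle : Q.card ≤ E.card := by
    apply Finset.card_le_card_of_injOn f
    · rintro ⟨v, ⟨l, a, b⟩, ⟨l', a', b'⟩⟩ hx
      obtain ⟨⟨h1, h2⟩, ⟨h3, h4⟩⟩ := hQ _ (Finset.mem_coe.mp hx)
      have h5 : φ ⟨l, a, b⟩ = φ ⟨l', a', b'⟩ := h2.trans h4.symm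
      have h6 : l = l' := congrArg Sigma.fst h5
      have h7 : a * b = a' * b' := congrArg (fun z : (Σ _ : ℝ, ℝ) => z.2) h5
      rw [hW] at h1 h3
      obtain ⟨g1, g2, g3, g4⟩ := h1
      obtain ⟨k1, k2, k3, k4⟩ := h3
      dsimp only at g1 g2 g3 g4 k1 k2 k3 k4
      have ha' : a' ≠ 0 := (hA a' k2).ne'
      change (⟨a / a', (a', b, l * b)⟩ : Σ _ : ℝ, ℝ × ℝ × ℝ) ∈ E
      simp only [E, Finset.mem_sigma, Finset.mem_product, mem_fib]
      have e1 : a / a' * a' = a := div_mul_cancel₀ a ha'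
      have e2 : a / a' * b = b' := by
        rw [div_mul_eq_mul_div, h7]
        exact mul_div_cancel_left₀ b' ha'
      have e3 : a / a' * (l * b) = l * b' := by
        rw [← e2]; ring
      refine ⟨Finset.div_mem_div g2 k2, ⟨k2, ?_⟩, ⟨g3, ?_⟩, ⟨g4, ?_⟩⟩
      · rw [e1]; exact g2
      · rw [e2]; exact k3
      · rw [e3, h6]; exact k4
    · rintro ⟨v, ⟨l, a, b⟩, ⟨l', a', b'⟩⟩ hx ⟨v2, ⟨m, c, d⟩, ⟨m', c', d'⟩⟩ hy hxy
      obtain ⟨⟨h1, h2⟩, ⟨h3, h4⟩⟩ := hQ _ (Finset.mem_coe.mp hx)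
      obtain ⟨⟨i1, i2⟩, ⟨i3, i4⟩⟩ := hQ _ (Finset.mem_coe.mp hy)
      dsimp only at h1 h2 h3 h4 i1 i2 i3 i4
      have h5 : φ ⟨l, a, b⟩ = φ ⟨l', a', b'⟩ := h2.trans h4.symm
      have h6 : l = l' := congrArg Sigma.fst h5
      have h7 : a * b = a' * b' := congrArg (fun z : (Σ _ : ℝ, ℝ) => z.2) h5
      have i5 : φ ⟨m, c, d⟩ = φ ⟨m', c', d'⟩ := i2.trans i4.symm
      have i6 : m = m' := congrArg Sigma.fst i5
      have i7 : c * d = c' * d' := congrArg (fun z : (Σ _ : ℝ, ℝ) => z.2) i5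
      rw [hW] at h1 h3 i1 i3
      dsimp only at h1 h3 i1 i3
      have ha' : a' ≠ 0 := (hA a' h3.2.1).ne'
      have hb : b ≠ 0 := (hA b h1.2.2.1).ne'
      have j1 : a / a' = c / c' := congrArg Sigma.fst hxy
      have j2 : (a', b, l * b) = (c', d, m * d) :=
        congrArg (fun z : (Σ _ : ℝ, ℝ × ℝ × ℝ) => z.2) hxy
      have j3 : a' = c' := congrArg Prod.fst j2
      have j4 : b = d := congrArg (fun z => z.2.1) j2
      have j5 : l * b = m * d := congrArg (fun z => z.2.2) j2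
      subst j3 j4 h6 i6
      have j6 : a = c := (div_left_inj' ha').mp j1
      have j7 : l = m := mul_right_cancel₀ hb j5
      subst j6 j7
      have j8 : b' = d' := mul_left_cancel₀ ha' (h7.symm.trans i7)
      subst j8
      have j9 : v = v2 := h2.symm.trans i2
      subst j9
      rfl
  calc (A.card * ∑ l ∈ S, (fib A l).card) ^ 2 = W.card ^ 2 := by rw [hWcard]
    _ ≤ V.card * ∑ v ∈ V, (W.filter (fun w => φ w = v)).card ^ 2 := hCS
    _ = V.card * Q.card := by rw [hQcard]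
    _ ≤ V.card * E.card := Nat.mul_le_mul_left _ hle
    _ = _ := by rw [hVcard, hEcard]

end Pool.Agent.W715.KF
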